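import Pool.Agent.Lib.TGA_h75.LF

/-!
# TANK G, block END, row E3: the frame elements `x, y` are algebraically independent
-/

set_option autoImplicit false

namespace Pool.Agent.TG

open Pool.Agent.LU2 (locV le_locV)

universe u

section

variable {k K : Type u} [Field k] [Field K] [Algebra k K]

/-- `n` elements over which `K` is algebraic are algebraically independent if the transcendence
degree is `n`. -/
theorem algInd_of_isAlgebraic {n r D : ℕ} (hn : Algebra.trdeg k K = n) (hrD : r + D = n)
    (x : Fin r → K) (y : Fin D → K)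
    (h : Algebra.IsAlgebraic (IntermediateField.adjoin k (Set.range (Sum.elim x y))) K) :
    AlgebraicIndependent k (Sum.elim x y) := by
  have := IntermediateField.isAlgebraic_adjoin_iff_top.1 h
  refine (Algebra.IsAlgebraic.isTranscendenceBasis_of_lift_le_trdeg_of_finite k (Sum.elim x y) ?_).1
  rw [hn]
  simp only [Cardinal.mk_sum, Cardinal.mk_fin, Cardinal.lift_natCast, Cardinal.lift_add]
  exact_mod_cast hrD.le

/-- If `K` is algebraic over the field `E` and the elements of `E` are algebraic over the field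
`L`, then `K` is algebraic over `L`. -/
theorem isAlgebraic_of_le_of_forall (L E : IntermediateField k K) (hE : Algebra.IsAlgebraic E K)
    (h : ∀ z ∈ E, IsAlgebraic L z) : Algebra.IsAlgebraic L K := by
  let M : IntermediateField L K := algebraicClosure L K
  have hM : ∀ z ∈ E, z ∈ M := fun z hz => (mem_algebraicClosure_iff).2 (h z hz)
  let j : E →+* M :=
    { toFun := fun z => ⟨z, hM z z.2⟩
      map_one' := rfl
      map_mul' := fun _ _ => rfl
      map_zero' := rfl
      map_add' := fun _ _ => rfl }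
  have : Algebra.IsAlgebraic M K := by
    refine ⟨fun z => ?_⟩
    obtain ⟨p, hp, hpz⟩ := hE.isAlgebraic z
    refine ⟨p.map j, (Polynomial.map_ne_zero_iff j.injective).2 hp, ?_⟩
    rw [Polynomial.aeval_def, Polynomial.eval₂_map]
    exact hpz
  exact Algebra.IsAlgebraic.trans L M K

/-- The elements which are algebraic over `L`, as a `k`-subfield of `K`. -/
theorem locV_algebraic (L : IntermediateField k K) {V : ValuationSubring K} {A : Subalgebra k K}
    (h : ∀ z ∈ A, IsAlgebraic L z) : ∀ z ∈ locV V A, IsAlgebraic L z := by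
  rintro z ⟨a, ha, b, hb, -, rfl⟩
  rw [div_eq_mul_inv]
  exact (h a ha).mul (h b hb).inv

theorem adjoin_algebraic (L : IntermediateField k K) {s : Set K} (h : ∀ z ∈ s, IsAlgebraic L z) :
    ∀ z ∈ Algebra.adjoin k s, IsAlgebraic L z := by
  intro z hz
  have hle : Algebra.adjoin k s ≤ ((algebraicClosure L K).restrictScalars k).toSubalgebra :=
    Algebra.adjoin_le fun a ha => (mem_algebraicClosure_iff).2 (h a ha)
  exact (mem_algebraicClosure_iff).1 (hle hz)

theorem tor_le_adjoin {r D : ℕ} (x : Fin r → K) (y : Fin D → K) (T : Set (Fin r → ℤ)) :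
    ∀ z ∈ tor k x y T, z ∈ IntermediateField.adjoin k (Set.range (Sum.elim x y)) := by
  intro z hz
  have hx : ∀ i, x i ∈ IntermediateField.adjoin k (Set.range (Sum.elim x y)) := fun i =>
    IntermediateField.subset_adjoin k _ ⟨Sum.inl i, rfl⟩
  have hy : ∀ i, y i ∈ IntermediateField.adjoin k (Set.range (Sum.elim x y)) := fun i =>
    IntermediateField.subset_adjoin k _ ⟨Sum.inr i, rfl⟩
  have hle : tor k x y T ≤
      (IntermediateField.adjoin k (Set.range (Sum.elim x y))).toSubalgebra := by
    refine Algebra.adjoin_le ?_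
    rintro a (⟨m, -, rfl⟩ | ⟨i, rfl⟩)
    · exact prod_mem fun i _ => zpow_mem (hx i) _
    · exact hy i
  exact hle hz

/-- A root of a monic polynomial with coefficients in the toric ring is algebraic. -/
theorem isAlgebraic_of_root {r D : ℕ} {x : Fin r → K} {y : Fin D → K} {T : Set (Fin r → ℤ)}
    {θ : K} {Φ : Polynomial K} (hΦ : Φ.Monic) (hc : ∀ i, Φ.coeff i ∈ tor k x y T)
    (h0 : Φ.eval θ = 0) :
    IsAlgebraic (IntermediateField.adjoin k (Set.range (Sum.elim x y))) θ := by
  set L := IntermediateField.adjoin k (Set.range (Sum.elim x y)) with hL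
  have h1 : Φ ∈ Polynomial.lifts (algebraMap L K) := by
    rw [Polynomial.lifts_iff_coeff_lifts]
    intro i
    exact ⟨⟨Φ.coeff i, tor_le_adjoin x y T _ (hc i)⟩, rfl⟩
  obtain ⟨q, hq, -, hqm⟩ := Polynomial.lifts_and_natDegree_eq_and_monic h1 hΦ
  refine IsIntegral.isAlgebraic ⟨q, hqm, ?_⟩
  rw [← Polynomial.eval_map, hq, h0]

/-- Row E3. -/
theorem rowE3 {n : ℕ} (hn : Algebra.trdeg k K = n) {V : ValuationSubring K} (hV : Ov k V)
    {P : Submodule k K} (hP : IsModel P) (hF : Fin' P) {ι : Type} [Fintype ι] {S : ι → K}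
    {Z : Set K} (F : LE n V (LR V P S) S Z) : AlgebraicIndependent k (Sum.elim F.x F.y) := by
  set L := IntermediateField.adjoin k (Set.range (Sum.elim F.x F.y)) with hL
  have h1 : ∀ z ∈ LR V P S, IsAlgebraic L z := by
    intro z hz
    rw [F.ring] at hz
    refine locV_algebraic L (adjoin_algebraic L ?_) z hz
    rintro a (ha | ha)
    · exact isAlgebraic_algebraMap (⟨a, tor_le_adjoin _ _ _ a ha⟩ : L)
    · rw [Set.mem_singleton_iff] at ha
      subst ha
      exact isAlgebraic_of_root F.monic F.coeff F.root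
  obtain ⟨f, hf⟩ := exists_isMin hV hP
  have h2 : ∀ g ∈ P, IsAlgebraic L (g / f) := fun g hg =>
    h1 _ (le_locV _ (le_ncl _ (Algebra.subset_adjoin (Or.inl (div_mem_RV hf hg)))))
  have h3 : ∀ z ∈ IntermediateField.adjoin k {x : K | ∃ f ∈ P, ∃ g ∈ P, x = g / f},
      IsAlgebraic L z := by
    intro z hz
    have hle : IntermediateField.adjoin k {x : K | ∃ f ∈ P, ∃ g ∈ P, x = g / f} ≤
        (algebraicClosure L K).restrictScalars k := by
      refine IntermediateField.adjoin_le_iff.2 ?_
      rintro _ ⟨f', hf', g, hg, rfl⟩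
      have h4 : g / f' = (g / f) * (f' / f)⁻¹ := by
        rw [inv_div, div_mul_div_comm, mul_comm g f, mul_div_mul_left _ _ hf.ne]
      rw [h4]
      exact (mem_algebraicClosure_iff).2 ((h2 g hg).mul (h2 f' hf').inv)
    exact (mem_algebraicClosure_iff).1 (hle hz)
  exact algInd_of_isAlgebraic hn F.dim F.x F.y (isAlgebraic_of_le_of_forall L _ hF h3)

end

end Pool.Agent.TG
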